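import Mathlib
import Pool.Agent.H699.MW.Gr

/-!
Correlation decay for maximum weight matchings: the final theorem from the parts.
-/

set_option autoImplicit false

open MeasureTheory Finset
open scoped Classical
open Pool.Agent.H699.MW

namespace Pool.Agent.H443.MW.FIN

theorem far_empty {V : Type} [Fintype V] (G : SimpleGraph V) :
    ∀ (n : ℕ) (S : Finset V) (v : V), Far G ∅ n S v
  | 0, _, _ => trivial
  | n + 1, S, v => ⟨by simp, fun u _ => far_empty G n (S.erase v) u⟩

theorem acyclic_sub {V : Type} (G G' : SimpleGraph V) (hle : G' ≤ G) (B S : Set V) (hS : S ⊆ B)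
    (h : (G.induce B).IsAcyclic) : (G'.induce S).IsAcyclic := by
  let f : G'.induce S →g G.induce B :=
    ⟨fun x => ⟨x.1, hS x.2⟩, fun {x y} hxy => hle hxy⟩
  refine SimpleGraph.IsAcyclic.comap f ?_ h
  intro x y hxy
  apply Subtype.ext
  exact congrArg (fun z : B => z.1) hxy

/-- The laws are laws of bounded variables. -/
theorem law_bdd (hL : S_LPR) (μ : Measure ℝ) (a b : ℝ) (hG : Good μ a b) (n : ℕ) (T : RT)
    (s : Bool) : ∀ᵐ x ∂(law μ b n T s), 0 ≤ x ∧ x ≤ b := by
  obtain ⟨_, h0, h1, h2, h3, h4⟩ := hL μ a b hG n T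
  have e1 : ∀ᵐ x ∂(law μ b n T s), ¬ x ∈ Set.Iio (ext a b n T false) :=
    (measure_eq_zero_iff_ae_notMem).1 (h3 s)
  have e2 : ∀ᵐ x ∂(law μ b n T s), ¬ x ∈ Set.Ioi (ext a b n T true) :=
    (measure_eq_zero_iff_ae_notMem).1 (h4 s)
  filter_upwards [e1, e2] with x hx hy
  simp only [Set.mem_Iio, not_lt] at hx
  simp only [Set.mem_Ioi, not_lt] at hy
  exact ⟨h0.trans hx, hy.trans h2⟩

theorem law_int (hL : S_LPR) (μ : Measure ℝ) (a b : ℝ) (hG : Good μ a b) (n : ℕ) (T : RT)
    (s : Bool) : Integrable (fun x : ℝ => x) (law μ b n T s) := by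
  have hp := (hL μ a b hG n T).1 s
  refine Integrable.of_bound (C := b) measurable_id.aestronglyMeasurable ?_
  filter_upwards [law_bdd hL μ a b hG n T s] with x hx
  rw [Real.norm_eq_abs, abs_of_nonneg hx.1]
  exact hx.2

/-- One of the two sides of the edge. -/
theorem side (hA : S_THA) (hM : S_MEA) (hW : S_LAW) (hS : S_MSM) (hL : S_LPR)
    (μ : Measure ℝ) (a b : ℝ) (hG : Good μ a b) (d : ℕ) (S₀ : ℝ) (hS₀ : 0 < S₀) :
    ∃ R : ℕ, ∀ r, R ≤ r → ∀ (V : Type) [Fintype V] (G : SimpleGraph V) (S : Finset V) (v : V),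
      (G.induce (S : Set V)).IsAcyclic → v ∈ S → (nb G S v).card ≤ d →
      (∀ x ∈ S, (nb G S x).card ≤ d + 1) →
      (∀ s, Integrable (msg G b r S v s) (Measure.pi fun _ : Sym2 V => μ)) ∧
      ∫ ω, msg G b r S v true ω ∂(Measure.pi fun _ : Sym2 V => μ) -
        ∫ ω, msg G b r S v false ω ∂(Measure.pi fun _ : Sym2 V => μ) ≤ S₀ := by
  obtain ⟨R, hR⟩ := hA μ a b hG d S₀ hS₀
  refine ⟨R, fun r hr V _ G S v hac hv hd hdd => ?_⟩
  have : IsProbabilityMeasure μ := ⟨hG.prob⟩
  obtain ⟨T, hT, hTs⟩ := hW V G μ b d r S v inferInstance hac hv hd hdd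
  have hmeas : ∀ s, Measurable (msg G b r S v s) := fun s => hS V G b r S v s
  have hint : ∀ s, Integrable (msg G b r S v s) (Measure.pi fun _ : Sym2 V => μ) := by
    intro s
    have h1 := law_int hL μ a b hG r T s
    rw [← hTs s] at h1
    exact (integrable_map_measure measurable_id.aestronglyMeasurable (hmeas s).aemeasurable).1 h1
  have hval : ∀ s, ∫ ω, msg G b r S v s ω ∂(Measure.pi fun _ : Sym2 V => μ) =
      ∫ x, x ∂(law μ b r T s) := by
    intro s
    rw [← hTs s]
    exact (integral_map (hmeas s).aemeasurable measurable_id.aestronglyMeasurable).symm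
  refine ⟨hint, ?_⟩
  rw [hval true, hval false]
  exact hM μ a b hG r T S₀ hS₀.le (hR r hr T hT)

/-- Almost surely all weights lie in the interval. -/
theorem ae_weights {ι : Type} [Fintype ι] (μ : Measure ℝ) (a b : ℝ) (hG : Good μ a b) :
    ∀ᵐ ω ∂(Measure.pi fun _ : ι => μ), ∀ e, 0 ≤ ω e ∧ ω e ≤ b := by
  have : IsProbabilityMeasure μ := ⟨hG.prob⟩
  rw [ae_all_iff]
  intro e
  have h1 : ∀ᵐ x ∂μ, x ∈ Set.Icc a b := by
    have := hG.supp
    exact mem_ae_iff.2 this
  have h2 := (Measure.tendsto_eval_ae_ae (μ := fun _ : ι => μ) (i := e)).eventually h1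
  filter_upwards [h2] with ω hω
  exact ⟨hG.nn.trans hω.1, hω.2⟩

theorem t_FIN : S_THA → S_MEA → S_LAW → S_IND → S_RHO → S_MSM → S_DEP → S_BND → S_UNI →
    S_LPR → S_FIN := by
  intro hA hM hW hI hR hS hD hB hU hL μ a b hG D ε hε
  have : IsProbabilityMeasure μ := ⟨hG.prob⟩
  obtain ⟨δ, hδ, hδ'⟩ := (hU μ a b hG).1 (ε / 2) (by positivity)
  have hS₀ : 0 < δ * ε / 4 := by positivity
  obtain ⟨R, hRR⟩ := side hA hM hW hS hL μ a b hG (D - 1) (δ * ε / 4) hS₀
  refine ⟨R, fun r hr V _ G hconn hdeg u v huv hac => ?_⟩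
  set P : Measure (Sym2 V → ℝ) := Measure.pi fun _ : Sym2 V => μ with hP
  set G' := G.deleteEdges {s(u, v)} with hG'
  set B := ball G u v r with hBdef
  have hle : G' ≤ G := SimpleGraph.deleteEdges_le _
  have huB : u ∈ B := by simp [hBdef, ball]
  have hvB : v ∈ B := by simp [hBdef, ball]
  have hne : u ≠ v := huv.ne
  have hvB' : v ∈ B.erase u := Finset.mem_erase.2 ⟨hne.symm, hvB⟩
  have hnotadj : ¬ G'.Adj u v := by simp [hG']
  have hnotadj' : ¬ G'.Adj v u := fun h => hnotadj h.symm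
  have hD1 : 1 ≤ D := by
    refine le_trans ?_ (hdeg u)
    exact Finset.card_pos.2 ⟨v, by simp [huv]⟩
  have hnb : ∀ (S : Finset V) (x : V), (nb G' S x).card ≤ (D - 1) + 1 := by
    intro S x
    have h1 : nb G' S x ⊆ univ.filter (G.Adj x) := by
      intro y hy
      simp only [nb, Finset.mem_filter] at hy
      simp only [Finset.mem_filter, Finset.mem_univ, true_and]
      exact hle hy.2
    have := (Finset.card_le_card h1).trans (hdeg x)
    omega
  have hnb2 : ∀ (S : Finset V) (x y : V), G.Adj x y → ¬ G'.Adj x y → (nb G' S x).card ≤ D - 1 := by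
    intro S x y hxy hxy'
    have h1 : nb G' S x ⊆ (univ.filter (G.Adj x)).erase y := by
      intro z hz
      simp only [nb, Finset.mem_filter] at hz
      refine Finset.mem_erase.2 ⟨?_, ?_⟩
      · rintro rfl
        exact hxy' hz.2
      · simp only [Finset.mem_filter, Finset.mem_univ, true_and]
        exact hle hz.2
    have h2 := Finset.card_le_card h1
    have h3 : ((univ.filter (G.Adj x)).erase y).card = (univ.filter (G.Adj x)).card - 1 :=
      Finset.card_erase_of_mem (by simp [hxy])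
    have h4 := hdeg x
    omega
  have hac1 : (G'.induce (B : Set V)).IsAcyclic :=
    acyclic_sub G G' hle _ _ (fun x hx => hx) hac
  have hac2 : (G'.induce ((B.erase u : Finset V) : Set V)).IsAcyclic :=
    acyclic_sub G G' hle _ _ (fun x hx => Finset.mem_of_mem_erase (Finset.mem_coe.1 hx)) hac
  obtain ⟨i1, d1⟩ := hRR r hr V G' B u hac1 huB (hnb2 B u v huv hnotadj) (fun x _ => hnb B x)
  obtain ⟨i2, d2⟩ := hRR r hr V G' (B.erase u) v hac2 hvB' (hnb2 _ v u huv.symm hnotadj')
    (fun x _ => hnb _ x)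
  have hdep : ∀ (S : Finset V) (w : V) (s : Bool) (ω ω' : Sym2 V → ℝ),
      (∀ x, x ≠ s(u, v) → ω x = ω' x) → msg G' b r S w s ω = msg G' b r S w s ω' := by
    intro S w s ω ω' h
    refine hD V G' b r S w s ω ω' ?_
    intro x y _ _ hxy
    refine h _ ?_
    intro he
    rw [hG', SimpleGraph.deleteEdges_adj] at hxy
    exact hxy.2 (by simpa using he)
  set f : (Sym2 V → ℝ) → ℝ := fun ω =>
    msg G' b r B u false ω + msg G' b r (B.erase u) v false ω with hf
  set g : (Sym2 V → ℝ) → ℝ := fun ω =>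
    msg G' b r B u true ω + msg G' b r (B.erase u) v true ω with hg
  have hfm : Measurable f := (hS V G' b r B u false).add (hS V G' b r (B.erase u) v false)
  have hgm : Measurable g := (hS V G' b r B u true).add (hS V G' b r (B.erase u) v true)
  have hle' : ∀ᵐ ω ∂P, f ω ≤ g ω := by
    filter_upwards [ae_weights (ι := Sym2 V) μ a b hG] with ω hω
    have h1 := hB V G' ω b ∅ hω r B u huB (far_empty G' r B u)
    have h2 := hB V G' ω b ∅ hω r (B.erase u) v hvB' (far_empty G' r _ v)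
    exact add_le_add (h1.1.trans h1.2) (h2.1.trans h2.2)
  have key := hI (Sym2 V) μ s(u, v) f g δ (ε / 2) inferInstance hfm hgm hδ
    (fun ω ω' h => by
      simp only [hf]
      rw [hdep B u false ω ω' h, hdep (B.erase u) v false ω ω' h])
    (fun ω ω' h => by
      simp only [hg]
      rw [hdep B u true ω ω' h, hdep (B.erase u) v true ω ω' h])
    ((i1 false).add (i2 false)) ((i1 true).add (i2 true)) hle' hδ'
  refine (hR V G μ a b hG hconn u v r huv).trans (key.trans ?_)
  have e1 : ∫ ω, g ω ∂P = ∫ ω, msg G' b r B u true ω ∂P +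
      ∫ ω, msg G' b r (B.erase u) v true ω ∂P := integral_add (i1 true) (i2 true)
  have e2 : ∫ ω, f ω ∂P = ∫ ω, msg G' b r B u false ω ∂P +
      ∫ ω, msg G' b r (B.erase u) v false ω ∂P := integral_add (i1 false) (i2 false)
  have e3 : ∫ ω, g ω ∂P - ∫ ω, f ω ∂P ≤ δ * (ε / 2) := by
    rw [e1, e2]
    linarith [d1, d2]
  have e4 : (∫ ω, g ω ∂P - ∫ ω, f ω ∂P) / δ ≤ ε / 2 := by
    rw [div_le_iff₀ hδ]
    linarith
  linarith [e4]

end Pool.Agent.H443.MW.FIN
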